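import Mathlib

/-!
The density-modified quotients `X_A` of the Čech-Stone remainder of `ℕ` are `k₂`-Hausdorff.
-/

set_option autoImplicit false

open Set Filter Topology TopologicalSpace

namespace Pool.Agent.Results.MP_a8a70f_gt.IsK2

universe u v w

/-- The equivalence relation on `Y` which identifies the points of `A`. -/
def collapse {Y : Type v} (A : Set Y) : Setoid Y where
  r x y := x = y ∨ (x ∈ A ∧ y ∈ A)
  iseqv := by
    refine ⟨fun x => Or.inl rfl, ?_, ?_⟩
    · rintro x y (h | ⟨h1, h2⟩)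
      · exact Or.inl h.symm
      · exact Or.inr ⟨h2, h1⟩
    · rintro x y z (rfl | ⟨h1, h2⟩) (rfl | ⟨h3, h4⟩)
      · exact Or.inl rfl
      · exact Or.inr ⟨h3, h4⟩
      · exact Or.inr ⟨h1, h2⟩
      · exact Or.inr ⟨h1, h4⟩

/-- The underlying set `Y/A` of the space `FMQ(Y, A, 𝒟_Y)`. -/
def FMQ (Y : Type v) (A : Set Y) : Type v := Quotient (collapse A)

/-- The projection `Y → Y/A`. -/
def q {Y : Type v} (A : Set Y) (y : Y) : FMQ Y A := Quotient.mk (collapse A) y

/-- The topology of `FMQ(Y, A, 𝒟_Y)`: `U` is open iff `q⁻¹(U)` is open and, in case `U` contains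
the point `q(A)`, the set `q⁻¹(U)` is dense. -/
instance {Y : Type v} [TopologicalSpace Y] (A : Set Y) : TopologicalSpace (FMQ Y A) where
  IsOpen U := IsOpen (q A ⁻¹' U) ∧ ((∃ a ∈ A, q A a ∈ U) → Dense (q A ⁻¹' U))
  isOpen_univ := ⟨isOpen_univ, fun _ => dense_univ⟩
  isOpen_inter := by
    rintro U V ⟨hU, hU'⟩ ⟨hV, hV'⟩
    refine ⟨hU.inter hV, ?_⟩
    rintro ⟨a, ha, haU, haV⟩
    exact (hU' ⟨a, ha, haU⟩).inter_of_isOpen_left (hV' ⟨a, ha, haV⟩) hU
  isOpen_sUnion := by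
    intro S hS
    refine ⟨?_, ?_⟩
    · rw [preimage_sUnion]
      exact isOpen_biUnion fun U hU => (hS U hU).1
    · rintro ⟨a, ha, U, hU, haU⟩
      exact ((hS U hU).2 ⟨a, ha, haU⟩).mono (preimage_mono (subset_sUnion_of_mem hU))

/-- A space `X` is `k₂`-Hausdorff if for every compact Hausdorff space `K` and every continuous
`f : K → X` the kernel `{(a, b) : f a = f b}` of `f` is closed in `K × K`. -/
def IsK2Hausdorff (X : Type v) [TopologicalSpace X] : Prop :=
  ∀ (K : Type u) [TopologicalSpace K] [CompactSpace K] [T2Space K] (f : K → X), Continuous f →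
    IsClosed {p : K × K | f p.1 = f p.2}

/-- The Čech-Stone remainder `βℕ \ ℕ`: the subspace of the nonprincipal ultrafilters in the space
`Ultrafilter ℕ` of all ultrafilters on `ℕ`. -/
def Nstar : Type := {u : Ultrafilter ℕ // ∀ n : ℕ, u ≠ pure n}

instance : TopologicalSpace Nstar := instTopologicalSpaceSubtype

instance : T2Space Nstar := inferInstanceAs (T2Space {u : Ultrafilter ℕ // ∀ n : ℕ, u ≠ pure n})

/-! ### Basic facts on `Nstar` -/

/-- The clopen set of the nonprincipal ultrafilters containing `S`. -/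
def star (S : Set ℕ) : Set Nstar := {u | S ∈ u.1}

lemma isOpen_star (S : Set ℕ) : IsOpen (star S) :=
  (ultrafilter_isOpen_basic S).preimage continuous_subtype_val

lemma isClosed_star (S : Set ℕ) : IsClosed (star S) :=
  (ultrafilter_isClosed_basic S).preimage continuous_subtype_val

lemma exists_star {O : Set Nstar} (hO : IsOpen O) {u : Nstar} (hu : u ∈ O) :
    ∃ S, u ∈ star S ∧ star S ⊆ O := by
  obtain ⟨V, hV, rfl⟩ := isOpen_induced_iff.1 hO
  obtain ⟨T, ⟨S, rfl⟩, hS, hT⟩ := ultrafilterBasis_is_basis.exists_subset_of_mem_open hu hV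
  exact ⟨S, hS, fun w hw => hT hw⟩

lemma not_mem_of_finite (u : Nstar) {S : Set ℕ} (hS : S.Finite) : S ∉ u.1 := by
  intro h
  obtain ⟨n, _, hn⟩ := Ultrafilter.eq_pure_of_finite_mem hS h
  exact u.2 n hn

lemma star_nonempty {S : Set ℕ} (hS : S.Infinite) : (star S).Nonempty := by
  have := hS.cofinite_inf_principal_neBot
  have h1 := Ultrafilter.of_le (cofinite ⊓ 𝓟 S)
  refine ⟨⟨Ultrafilter.of (cofinite ⊓ 𝓟 S), fun n hn => ?_⟩, ?_⟩
  · have h2 : ({n}ᶜ : Set ℕ) ∈ Ultrafilter.of (cofinite ⊓ 𝓟 S) :=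
      h1 (mem_inf_of_left (finite_singleton n).compl_mem_cofinite)
    rw [hn] at h2
    exact (Ultrafilter.mem_pure.1 h2) rfl
  · exact h1 (mem_inf_of_right (mem_principal_self S))

/-- An infinite set contains infinitely many disjoint infinite sets. -/
lemma exists_partition {S : Set ℕ} (hS : S.Infinite) :
    ∃ P : ℕ → Set ℕ, (∀ n, (P n).Infinite ∧ P n ⊆ S) ∧ ∀ m n, m ≠ n → Disjoint (P m) (P n) := by
  let e : ℕ → ℕ := fun n => (Set.Infinite.natEmbedding S hS n : ℕ)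
  have he : Function.Injective e :=
    Subtype.val_injective.comp (Set.Infinite.natEmbedding S hS).injective
  have heS : ∀ n, e n ∈ S := fun n => (Set.Infinite.natEmbedding S hS n).2
  refine ⟨fun n => range fun k => e (Nat.pair n k), fun n => ⟨?_, ?_⟩, ?_⟩
  · apply infinite_range_of_injective
    intro k l hkl
    have := he hkl
    exact (Nat.pair_eq_pair.1 this).2
  · rintro _ ⟨k, rfl⟩
    exact heS _
  · intro m n hmn
    rw [disjoint_left]
    rintro _ ⟨k, rfl⟩ ⟨l, hl⟩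
    exact hmn (Nat.pair_eq_pair.1 (he hl)).1.symm

/-- The closure of a countable set in `Nstar` has empty interior. -/
lemma interior_closure_countable {T : Set Nstar} (hT : T.Countable) :
    interior (closure T) = ∅ := by
  rcases T.eq_empty_or_nonempty with rfl | hne
  · simp
  obtain ⟨t, rfl⟩ := hT.exists_eq_range hne
  by_contra hcon
  obtain ⟨u, hu⟩ := nonempty_iff_ne_empty.2 hcon
  obtain ⟨S, huS, hS⟩ := exists_star isOpen_interior hu
  have hSinf : S.Infinite := fun h => not_mem_of_finite u h huS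
  have hstep : ∀ (S : {S : Set ℕ // S.Infinite}) (w : Nstar),
      ∃ S' : {S : Set ℕ // S.Infinite}, S'.1 ⊆ S.1 ∧ S'.1 ∉ w.1 := by
    rintro ⟨S, hS⟩ w
    obtain ⟨P, hP, hdis⟩ := exists_partition hS
    by_cases h0 : P 0 ∈ w.1
    · refine ⟨⟨P 1, (hP 1).1⟩, (hP 1).2, fun h1 => ?_⟩
      have := w.1.inter_sets h0 h1
      rw [(hdis 0 1 (by norm_num)).inter_eq] at this
      exact w.1.empty_notMem this
    · exact ⟨⟨P 0, (hP 0).1⟩, (hP 0).2, h0⟩
  choose step hs1 hs2 using hstep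
  let R : ℕ → {S : Set ℕ // S.Infinite} := fun n => Nat.rec ⟨S, hSinf⟩ (fun n S => step S (t n)) n
  have hR : ∀ n, R (n + 1) = step (R n) (t n) := fun n => rfl
  have hRanti : Antitone fun n => (R n).1 := antitone_nat_of_succ_le fun n => by
    show (R (n + 1)).1 ⊆ (R n).1
    rw [hR]; exact hs1 _ _
  obtain ⟨φ, hφ, hφR⟩ := extraction_forall_of_frequently
    (P := fun n k => k ∈ (R n).1) fun n => Nat.frequently_atTop_iff_infinite.2 (R n).2
  have hinf : (range φ).Infinite := infinite_range_of_injective hφ.injective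
  obtain ⟨w, hw⟩ := star_nonempty hinf
  have hwS : w ∈ closure (range t) := by
    apply interior_subset
    apply hS
    refine mem_of_superset hw ?_
    rintro _ ⟨n, rfl⟩
    exact hRanti (Nat.zero_le n) (hφR n)
  obtain ⟨_, hx, n, rfl⟩ := mem_closure_iff.1 hwS _ (isOpen_star _) hw
  have h1 : (range φ \ (R (n + 1)).1).Finite := by
    refine ((finite_Iic n).image φ).subset ?_
    rintro _ ⟨⟨k, rfl⟩, hk⟩
    refine ⟨k, ?_, rfl⟩
    by_contra hkn
    have h0 : n + 1 ≤ k := Nat.succ_le_of_lt (not_le.1 (show ¬ k ≤ n from hkn))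
    exact hk (hRanti h0 (hφR k))
  have h2 : (R (n + 1)).1 ∈ (t n).1 := by
    have h3 : (range φ \ (R (n + 1)).1)ᶜ ∈ (t n).1 :=
      Ultrafilter.compl_mem_iff_notMem.2 (not_mem_of_finite _ h1)
    filter_upwards [hx, h3] with k hk1 hk2
    by_contra h4
    exact hk2 ⟨hk1, h4⟩
  rw [hR] at h2
  exact hs2 _ _ h2

/-! ### The quotient map -/

section quotient

variable {Y : Type v} {A : Set Y}

lemma q_eq {x y : Y} : q A x = q A y ↔ x = y ∨ (x ∈ A ∧ y ∈ A) :=
  Quotient.eq (r := collapse A) (x := x) (y := y)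

lemma q_inj {x y : Y} (hx : x ∉ A) (h : q A x = q A y) : x = y := by
  rcases q_eq.1 h with h | h
  · exact h
  · exact absurd h.1 hx

lemma q_surj (a : FMQ Y A) : ∃ y, q A y = a := Quotient.exists_rep a

lemma preimage_image {C : Set Y} (hC : Disjoint C A) : q A ⁻¹' (q A '' C) = C := by
  ext x
  constructor
  · rintro ⟨y, hy, hyx⟩
    exact (q_inj (disjoint_left.1 hC hy) hyx) ▸ hy
  · intro hx
    exact ⟨x, hx, rfl⟩

variable [TopologicalSpace Y]

lemma isOpen_image {V : Set Y} (hV : IsOpen V) (hVA : Disjoint V A) : IsOpen (q A '' V) := by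
  refine ⟨?_, ?_⟩
  · rw [preimage_image hVA]; exact hV
  · rintro ⟨a, ha, x, hx, hxa⟩
    have := q_inj (disjoint_left.1 hVA hx) hxa
    exact absurd (this ▸ hx) (disjoint_right.1 hVA ha)

lemma isClosed_image {V : Set Y} (hV : IsClosed V) (hint : interior V = ∅)
    (hVA : Disjoint V A) : IsClosed (q A '' V) := by
  rw [← isOpen_compl_iff]
  refine ⟨?_, fun _ => ?_⟩
  · rw [preimage_compl, preimage_image hVA]
    exact hV.isOpen_compl
  · rw [preimage_compl, preimage_image hVA]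
    exact interior_eq_empty_iff_dense_compl.1 hint

lemma isClosed_star' (hA : IsClosed A) : IsClosed (q A '' A) := by
  rw [← isOpen_compl_iff]
  refine ⟨?_, ?_⟩
  · have : q A ⁻¹' (q A '' A)ᶜ = Aᶜ := by
      ext x
      simp only [mem_preimage, mem_compl_iff, not_iff_not]
      constructor
      · rintro ⟨y, hy, hyx⟩
        rcases q_eq.1 hyx with h | h
        · exact h ▸ hy
        · exact h.2
      · intro hx
        exact ⟨x, hx, rfl⟩
    rw [this]
    exact hA.isOpen_compl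
  · rintro ⟨a, ha, h⟩
    exact absurd ⟨a, ha, rfl⟩ h

end quotient

/-! ### The main argument -/

section main

variable {K : Type u} [TopologicalSpace K] [CompactSpace K] [T2Space K] {A : Set Nstar}

/-- The main lemma. -/
lemma main_aux (hA : IsClosed A) {f : K → FMQ Nstar A} (hf : Continuous f) {ι : Type w}
    (D : ι → Set Nstar) (hD : ∀ i, IsOpen (D i)) (hdisj : ∀ i j, i ≠ j → Disjoint (D i) (D j))
    (hcl : Disjoint (closure (⋃ i, D i)) A) :
    ∃ Q : Set K, IsClosed Q ∧ (∀ k ∈ Q, f k ∉ q A '' A) ∧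
      f ⁻¹' (q A '' (closure (⋃ i, D i) \ ⋃ i, D i)) ⊆ Q ∧
      {i | ¬ f ⁻¹' (q A '' D i) ⊆ Q}.Finite := by
  set O : Set Nstar := ⋃ i, D i with hO
  have hOo : IsOpen O := isOpen_iUnion hD
  have hDA : ∀ i, Disjoint (D i) A := fun i =>
    hcl.mono_left ((subset_iUnion D i).trans subset_closure)
  have hC : IsClosed (f ⁻¹' (q A '' (closure O \ O))) := by
    refine (isClosed_image (isClosed_closure.sdiff hOo) ?_ (hcl.mono_left sdiff_subset)).preimage hf
    by_contra hcon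
    obtain ⟨z, hz⟩ := nonempty_iff_ne_empty.2 hcon
    obtain ⟨w, hw1, hw2⟩ := mem_closure_iff.1 (interior_subset hz).1 _ isOpen_interior hz
    exact (interior_subset hw1).2 hw2
  have hF : IsClosed (f ⁻¹' (q A '' A)) := (isClosed_star' hA).preimage hf
  obtain ⟨W, hW, hCW, hWF⟩ := normal_exists_closure_subset hC hF.isOpen_compl (by
    rintro k ⟨x, hx, hxk⟩ ⟨a, ha, hak⟩
    have h1 : x ∉ A := disjoint_left.1 hcl hx.1
    have h2 := q_inj h1 (hxk.trans hak.symm)
    exact h1 (h2 ▸ ha))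
  refine ⟨closure W, isClosed_closure, fun k hk => hWF hk, hCW.trans subset_closure, ?_⟩
  by_contra hinf
  have hinf' : {i | ¬ f ⁻¹' (q A '' D i) ⊆ closure W}.Infinite := hinf
  let e := Set.Infinite.natEmbedding _ hinf'
  have h1 : ∀ n, ∃ x : K, ∃ y : Nstar, y ∈ D (e n).1 ∧ q A y = f x ∧ x ∉ closure W := by
    intro n
    obtain ⟨x, ⟨y, hy, hyx⟩, hx⟩ := not_subset.1 (e n).2
    exact ⟨x, y, hy, hyx, hx⟩
  choose x y hy hyx hx using h1
  have hTO : closure (range y) ⊆ closure O := by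
    apply closure_mono
    rintro _ ⟨n, rfl⟩
    exact mem_iUnion.2 ⟨_, hy n⟩
  have hTc : IsClosed (f ⁻¹' (q A '' closure (range y))) :=
    (isClosed_image isClosed_closure (interior_closure_countable (countable_range y))
      (hcl.mono_left hTO)).preimage hf
  have hK' : IsCompact (f ⁻¹' (q A '' closure (range y)) \ W) := (hTc.sdiff hW).isCompact
  obtain ⟨t, ht⟩ := hK'.elim_finite_subcover (fun i => f ⁻¹' (q A '' D i))
    (fun i => (isOpen_image (hD i) (hDA i)).preimage hf) (by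
      rintro k ⟨⟨z, hz, hzk⟩, hkW⟩
      by_cases hzO : z ∈ O
      · obtain ⟨i, hi⟩ := mem_iUnion.1 hzO
        exact mem_iUnion.2 ⟨i, z, hi, hzk⟩
      · exact absurd (hCW ⟨z, ⟨hTO hz, hzO⟩, hzk⟩) hkW)
  have h2 : ∀ n, (e n).1 ∈ t := by
    intro n
    have h3 := ht ⟨⟨y n, subset_closure ⟨n, rfl⟩, hyx n⟩, fun h => hx n (subset_closure h)⟩
    obtain ⟨i, hi, z, hz, hzx⟩ := mem_iUnion₂.1 h3
    have h4 := q_inj (disjoint_left.1 (hDA i) hz) (hzx.trans (hyx n).symm)
    by_cases h5 : i = (e n).1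
    · exact h5 ▸ hi
    · exact absurd (h4 ▸ hz) (disjoint_right.1 (hdisj i _ h5) (hy n))
  have h3 : (range fun n => (e n).1).Infinite :=
    infinite_range_of_injective (Subtype.val_injective.comp e.injective)
  apply h3
  refine t.finite_toSet.subset ?_
  rintro _ ⟨n, rfl⟩
  exact h2 n

/-- `V` is good if its preimage is contained in a closed set missing the preimage of `q(A)`. -/
def Good (f : K → FMQ Nstar A) (V : Set Nstar) : Prop :=
  ∃ Q : Set K, IsClosed Q ∧ (∀ k ∈ Q, f k ∉ q A '' A) ∧ f ⁻¹' (q A '' V) ⊆ Q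

lemma tall (hA : IsClosed A) {f : K → FMQ Nstar A} (hf : Continuous f) {S : Set ℕ}
    (hS : S.Infinite) (hSA : Disjoint (star S) A) :
    ∃ S' ⊆ S, S'.Infinite ∧ Good f (star S') := by
  obtain ⟨P, hP, hdis⟩ := exists_partition hS
  obtain ⟨Q, hQ, hQA, _, hfin⟩ := main_aux hA hf (fun n => star (P n)) (fun n => isOpen_star _)
    (by
      intro m n hmn
      rw [disjoint_left]
      intro w h1 h2
      have := w.1.inter_sets h1 h2
      rw [(hdis m n hmn).inter_eq] at this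
      exact w.1.empty_notMem this)
    (hSA.mono_left (closure_minimal (iUnion_subset fun n w hw => mem_of_superset hw (hP n).2)
      (isClosed_star S)))
  obtain ⟨n, hn⟩ := hfin.infinite_compl.nonempty
  exact ⟨P n, (hP n).2, (hP n).1, Q, hQ, hQA, not_not.1 hn⟩

lemma good_star (hA : IsClosed A) {f : K → FMQ Nstar A} (hf : Continuous f) {B : Set ℕ}
    (hBA : Disjoint (star B) A) : Good f (star B) := by
  -- a maximal almost disjoint family of good subsets
  obtain ⟨𝒜, h𝒜⟩ := zorn_subset {𝒜 : Set (Set ℕ) | (∀ S ∈ 𝒜, S ⊆ B ∧ Good f (star S)) ∧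
      ∀ S ∈ 𝒜, ∀ T ∈ 𝒜, S ≠ T → Disjoint (star S) (star T)} (by
    intro c hc hchain
    refine ⟨⋃₀ c, ⟨?_, ?_⟩, fun s hs => subset_sUnion_of_mem hs⟩
    · rintro S ⟨s, hs, hS⟩
      exact (hc hs).1 S hS
    · rintro S ⟨s, hs, hS⟩ T ⟨t, ht, hT⟩ hne
      rcases hchain.total hs ht with h | h
      · exact (hc ht).2 S (h hS) T hT hne
      · exact (hc hs).2 S hS T (h hT) hne)
  have hsub : closure (⋃ S : 𝒜, star S.1) ⊆ star B :=
    closure_minimal (iUnion_subset fun S w hw => mem_of_superset hw (h𝒜.prop.1 S.1 S.2).1)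
      (isClosed_star B)
  have hdense : star B ⊆ closure (⋃ S : 𝒜, star S.1) := by
    intro w hw
    by_contra hcon
    obtain ⟨S, hwS, hS⟩ := exists_star isClosed_closure.isOpen_compl hcon
    have hinf : (S ∩ B).Infinite := fun h => not_mem_of_finite w h (w.1.inter_sets hwS hw)
    obtain ⟨S', hS', hS'inf, hgood⟩ := tall hA hf hinf
      (hBA.mono_left fun z hz => mem_of_superset hz inter_subset_right)
    have hout : star S' ⊆ (closure (⋃ S : 𝒜, star S.1))ᶜ := fun z hz =>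
      hS (mem_of_superset hz (hS'.trans inter_subset_left))
    have hdisj : ∀ T ∈ 𝒜, Disjoint (star S') (star T) := by
      intro T hT
      rw [disjoint_left]
      intro z hz hzT
      exact hout hz (subset_closure (mem_iUnion.2 ⟨⟨T, hT⟩, hzT⟩))
    have h1 : insert S' 𝒜 ∈ {𝒜 : Set (Set ℕ) | (∀ S ∈ 𝒜, S ⊆ B ∧ Good f (star S)) ∧
        ∀ S ∈ 𝒜, ∀ T ∈ 𝒜, S ≠ T → Disjoint (star S) (star T)} := by
      refine ⟨?_, ?_⟩
      · rintro T (rfl | hT)
        · exact ⟨hS'.trans inter_subset_right, hgood⟩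
        · exact h𝒜.prop.1 T hT
      · rintro T (rfl | hT) R (rfl | hR) hne
        · exact absurd rfl hne
        · exact hdisj R hR
        · exact (hdisj T hT).symm
        · exact h𝒜.prop.2 T hT R hR hne
    have h2 := h𝒜.eq_of_subset h1 (subset_insert _ _)
    have h3 : S' ∈ 𝒜 := by rw [h2]; exact mem_insert _ _
    obtain ⟨z, hz⟩ := star_nonempty hS'inf
    exact disjoint_left.1 (hdisj S' h3) hz hz
  obtain ⟨Q, hQ, hQA, hQC, hfin⟩ := main_aux hA hf (fun S : 𝒜 => star S.1)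
    (fun S => isOpen_star _)
    (fun S T hne => h𝒜.prop.2 S.1 S.2 T.1 T.2 fun h => hne (Subtype.ext h))
    (hBA.mono_left hsub)
  choose R hR hRA hRS using fun S : 𝒜 => (h𝒜.prop.1 S.1 S.2).2
  refine ⟨Q ∪ ⋃ S ∈ {S : 𝒜 | ¬ f ⁻¹' (q A '' star S.1) ⊆ Q}, R S,
    hQ.union (hfin.isClosed_biUnion fun S _ => hR S), ?_, ?_⟩
  · rintro k (hk | hk)
    · exact hQA k hk
    · obtain ⟨S, _, hkS⟩ := mem_iUnion₂.1 hk
      exact hRA S k hkS
  · rintro k ⟨w, hw, hwk⟩
    by_cases hwO : w ∈ ⋃ S : 𝒜, star S.1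
    · obtain ⟨S, hS⟩ := mem_iUnion.1 hwO
      have hk : k ∈ f ⁻¹' (q A '' star S.1) := ⟨w, hS, hwk⟩
      by_cases hSQ : f ⁻¹' (q A '' star S.1) ⊆ Q
      · exact Or.inl (hSQ hk)
      · exact Or.inr (mem_iUnion₂.2 ⟨S, hSQ, hRS S hk⟩)
    · exact Or.inl (hQC ⟨w, ⟨hdense hw, hwO⟩, hwk⟩)

/-- Asymmetric case. -/
lemma not_mem_aux (hA : IsClosed A) {f : K → FMQ Nstar A} (hf : Continuous f) {a b : K}
    (ha : f a ∈ q A '' A) (hb : f b ∉ q A '' A) :
    ∃ U V : Set K, IsOpen U ∧ IsOpen V ∧ a ∈ U ∧ b ∈ V ∧ ∀ s ∈ U, ∀ t ∈ V, f s ≠ f t := by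
  obtain ⟨y, hy⟩ := q_surj (f b)
  have hyA : y ∉ A := fun h => hb ⟨y, h, hy⟩
  obtain ⟨B, hyB, hBA⟩ := exists_star hA.isOpen_compl hyA
  have hBA' : Disjoint (star B) A := disjoint_left.2 fun z hz => hBA hz
  obtain ⟨Q, hQ, hQA, hBQ⟩ := good_star hA hf hBA'
  refine ⟨Qᶜ, f ⁻¹' (q A '' star B), hQ.isOpen_compl, (isOpen_image (isOpen_star B) hBA').preimage hf,
    fun h => hQA a h ha, ⟨y, hyB, hy⟩, ?_⟩
  intro s hs t ht hst
  apply hs
  apply hBQ
  show f s ∈ q A '' star B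
  rw [hst]
  exact ht

end main

/-- **The spaces `X_A` are `k₂`-Hausdorff**, for every nonempty closed (in particular, for every
nonempty finite) set `A ⊆ βℕ \ ℕ`. -/
theorem result (A : Set Nstar) (hA : IsClosed A) (_hne : A.Nonempty) :
    IsK2Hausdorff.{u} (FMQ Nstar A) := by
  intro K _ _ _ f hf
  rw [← isOpen_compl_iff, isOpen_iff_mem_nhds]
  rintro ⟨a, b⟩ hab
  have hab' : f a ≠ f b := hab
  suffices h : ∃ U V : Set K, IsOpen U ∧ IsOpen V ∧ a ∈ U ∧ b ∈ V ∧ ∀ s ∈ U, ∀ t ∈ V, f s ≠ f t by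
    obtain ⟨U, V, hU, hV, haU, hbV, h⟩ := h
    refine mem_of_superset (prod_mem_nhds (hU.mem_nhds haU) (hV.mem_nhds hbV)) ?_
    rintro ⟨s, t⟩ ⟨hs, ht⟩
    exact h s hs t ht
  by_cases ha : f a ∈ q A '' A
  · by_cases hb : f b ∈ q A '' A
    · exfalso
      obtain ⟨x, hx, hxa⟩ := ha
      obtain ⟨y, hy, hyb⟩ := hb
      apply hab'
      rw [← hxa, ← hyb]
      exact q_eq.2 (Or.inr ⟨hx, hy⟩)
    · exact not_mem_aux hA hf ha hb
  · by_cases hb : f b ∈ q A '' A
    · obtain ⟨U, V, hU, hV, hbU, haV, h⟩ := not_mem_aux hA hf hb ha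
      exact ⟨V, U, hV, hU, haV, hbU, fun s hs t ht hst => h t ht s hs hst.symm⟩
    · obtain ⟨x, hx⟩ := q_surj (f a)
      obtain ⟨y, hy⟩ := q_surj (f b)
      have hxA : x ∉ A := fun h => ha ⟨x, h, hx⟩
      have hyA : y ∉ A := fun h => hb ⟨y, h, hy⟩
      have hxy : x ≠ y := fun h => hab' (by rw [← hx, ← hy, h])
      obtain ⟨U, V, hU, hV, hxU, hyV, hUV⟩ := t2_separation hxy
      have hUA : Disjoint (U ∩ Aᶜ) A := disjoint_left.2 fun z hz => hz.2
      have hVA : Disjoint (V ∩ Aᶜ) A := disjoint_left.2 fun z hz => hz.2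
      refine ⟨f ⁻¹' (q A '' (U ∩ Aᶜ)), f ⁻¹' (q A '' (V ∩ Aᶜ)),
        (isOpen_image (hU.inter hA.isOpen_compl) hUA).preimage hf,
        (isOpen_image (hV.inter hA.isOpen_compl) hVA).preimage hf,
        ⟨x, ⟨hxU, hxA⟩, hx⟩, ⟨y, ⟨hyV, hyA⟩, hy⟩, ?_⟩
      rintro s ⟨z, hz, hzs⟩ t ⟨w, hw, hwt⟩ hst
      have := q_inj hz.2 (hzs.trans (hst.trans hwt.symm))
      exact disjoint_left.1 hUV hz.1 (this ▸ hw.1)

end Pool.Agent.Results.MP_a8a70f_gt.IsK2
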